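import Mathlib

set_option autoImplicit false

/-!
Schwarz-Pick at a real point of a disc (derivative form).
-/

open Metric Set

namespace Pool.Agent.Helper5.HD

/-- Schwarz-Pick with a strict bound. -/
theorem schwarz_pick_strict {f : ℂ → ℂ} {r R T : ℝ} (hr : 0 < r) (hR : 0 < R) (hT0 : 0 ≤ T)
    (hT : T < r) (hd : Differentiable ℂ f) (hb : ∀ s : ℂ, ‖s‖ < r → ‖f s‖ < R) :
    ‖deriv f (T : ℂ)‖ ≤ (R ^ 2 - ‖f T‖ ^ 2) * r / (R * (r ^ 2 - T ^ 2)) := by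
  set a : ℂ := f T with ha
  have haR : ‖a‖ < R := hb _ (by rw [Complex.norm_real, Real.norm_eq_abs, abs_of_nonneg hT0]; exact hT)
  have hTr : T / r < 1 := (div_lt_one hr).2 hT
  have hTr0 : 0 ≤ T / r := div_nonneg hT0 hr.le
  set t : ℝ := T / r with ht
  -- the Moebius map
  let φ : ℂ → ℂ := fun ζ => r * (ζ + t) / (1 + t * ζ)
  have hden : ∀ ζ : ℂ, ‖ζ‖ < 1 → (1 + t * ζ : ℂ) ≠ 0 := by
    intro ζ hζ h0
    have h1 : (t * ζ : ℂ) = -1 := by linear_combination h0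
    have h2 : ‖(t * ζ : ℂ)‖ = 1 := by rw [h1]; simp
    rw [norm_mul, Complex.norm_real, Real.norm_eq_abs, abs_of_nonneg hTr0] at h2
    nlinarith [norm_nonneg ζ]
  have hφb : ∀ ζ : ℂ, ‖ζ‖ < 1 → ‖φ ζ‖ < r := by
    intro ζ hζ
    have h1 := hden ζ hζ
    have h2 : 0 < ‖(1 + t * ζ : ℂ)‖ := norm_pos_iff.2 h1
    show ‖(r * (ζ + t) / (1 + t * ζ) : ℂ)‖ < r
    rw [norm_div, norm_mul, Complex.norm_real, Real.norm_eq_abs, abs_of_pos hr, div_lt_iff₀ h2]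
    apply mul_lt_mul_of_pos_left _ hr
    apply lt_of_pow_lt_pow_left₀ 2 (norm_nonneg _)
    rw [← Complex.normSq_eq_norm_sq, ← Complex.normSq_eq_norm_sq]
    have h3 : ζ.re ^ 2 + ζ.im ^ 2 < 1 := by
      have : ‖ζ‖ ^ 2 < 1 := by nlinarith [norm_nonneg ζ]
      rw [← Complex.normSq_eq_norm_sq, Complex.normSq_apply] at this
      nlinarith
    simp only [Complex.normSq_apply, Complex.add_re, Complex.add_im, Complex.one_re, Complex.one_im,
      Complex.mul_re, Complex.mul_im, Complex.ofReal_re, Complex.ofReal_im]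
    nlinarith [mul_pos (sub_pos.2 hTr) (by linarith : (0:ℝ) < 1 + t)]
  have hφ0 : φ 0 = T := by
    show (r * (0 + t) / (1 + t * 0) : ℂ) = T
    rw [ht]; push_cast
    have hrc : (r:ℂ) ≠ 0 := by exact_mod_cast hr.ne'
    simp
    field_simp
  have hφd : HasDerivAt φ (r * (1 - t ^ 2)) 0 := by
    have h1 : HasDerivAt (fun ζ : ℂ => (r * (ζ + t) : ℂ)) (r * 1) 0 :=
      ((hasDerivAt_id (0:ℂ)).add_const _).const_mul _
    have h2 : HasDerivAt (fun ζ : ℂ => (1 + t * ζ : ℂ)) (t * 1) 0 :=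
      ((hasDerivAt_id (0:ℂ)).const_mul (t:ℂ)).const_add 1
    have h3 := h1.div h2 (by simp)
    refine h3.congr_deriv ?_
    simp
    ring
  -- the normalised map
  let g : ℂ → ℂ := fun ζ => R * (f (φ ζ) - a) / (R ^ 2 - (starRingEnd ℂ) a * f (φ ζ))
  have hdeng : ∀ ζ : ℂ, ‖ζ‖ < 1 → (R ^ 2 - (starRingEnd ℂ) a * f (φ ζ) : ℂ) ≠ 0 := by
    intro ζ hζ h0
    have h1 : ((R:ℂ) ^ 2) = (starRingEnd ℂ) a * f (φ ζ) := by linear_combination h0
    have h2 : ‖((R:ℂ) ^ 2)‖ = R ^ 2 := by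
      rw [norm_pow, Complex.norm_real, Real.norm_eq_abs, abs_of_pos hR]
    have h3 : ‖(starRingEnd ℂ) a * f (φ ζ)‖ < R * R := by
      rw [norm_mul, RCLike.norm_conj]
      exact mul_lt_mul'' haR (hb _ (hφb ζ hζ)) (norm_nonneg _) (norm_nonneg _)
    rw [← h1, h2] at h3
    nlinarith
  have hgb : ∀ ζ : ℂ, ‖ζ‖ < 1 → ‖g ζ‖ < 1 := by
    intro ζ hζ
    have h1 := hdeng ζ hζ
    have h2 : 0 < ‖(R ^ 2 - (starRingEnd ℂ) a * f (φ ζ) : ℂ)‖ := norm_pos_iff.2 h1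
    show ‖(R * (f (φ ζ) - a) / (R ^ 2 - (starRingEnd ℂ) a * f (φ ζ)) : ℂ)‖ < 1
    rw [norm_div, div_lt_one h2]
    apply lt_of_pow_lt_pow_left₀ 2 (norm_nonneg _)
    have h3 := hb _ (hφb ζ hζ)
    set b : ℂ := f (φ ζ) with hbdef
    have h4 : b.re ^ 2 + b.im ^ 2 < R ^ 2 := by
      have : ‖b‖ ^ 2 < R ^ 2 := by nlinarith [norm_nonneg b]
      rw [← Complex.normSq_eq_norm_sq, Complex.normSq_apply] at this
      nlinarith
    have h5 : a.re ^ 2 + a.im ^ 2 < R ^ 2 := by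
      have : ‖a‖ ^ 2 < R ^ 2 := by nlinarith [norm_nonneg a]
      rw [← Complex.normSq_eq_norm_sq, Complex.normSq_apply] at this
      nlinarith
    rw [← Complex.normSq_eq_norm_sq, ← Complex.normSq_eq_norm_sq]
    have hR2 : ((R:ℂ) ^ 2).re = R ^ 2 := by rw [← Complex.ofReal_pow]; exact Complex.ofReal_re _
    have hR2' : ((R:ℂ) ^ 2).im = 0 := by rw [← Complex.ofReal_pow]; exact Complex.ofReal_im _
    simp only [Complex.normSq_apply, Complex.sub_re, Complex.sub_im, hR2, hR2',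
      Complex.mul_re, Complex.mul_im, Complex.ofReal_re, Complex.ofReal_im, Complex.conj_re,
      Complex.conj_im]
    nlinarith [mul_pos (sub_pos.2 h4) (sub_pos.2 h5)]
  have hfd : HasDerivAt f (deriv f T) (φ 0) := by rw [hφ0]; exact (hd _).hasDerivAt
  have hcomp : HasDerivAt (fun ζ => f (φ ζ)) (deriv f T * (r * (1 - t ^ 2))) 0 :=
    hfd.comp 0 hφd
  have hg0 : g 0 = 0 := by
    show (R * (f (φ 0) - a) / (R ^ 2 - (starRingEnd ℂ) a * f (φ 0)) : ℂ) = 0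
    rw [hφ0]; simp [ha]
  have hnsq : (starRingEnd ℂ) a * a = ((‖a‖ ^ 2 : ℝ) : ℂ) := by
    rw [← Complex.normSq_eq_norm_sq, Complex.normSq_eq_conj_mul_self]
  have hgd : HasDerivAt g (R * (deriv f T * (r * (1 - t ^ 2))) / (R ^ 2 - (‖a‖ ^ 2 : ℝ))) 0 := by
    have h1 : HasDerivAt (fun ζ => (R * (f (φ ζ) - a) : ℂ)) (R * (deriv f T * (r * (1 - t ^ 2)))) 0 :=
      (hcomp.sub_const a).const_mul (R:ℂ)
    have h2 : HasDerivAt (fun ζ => (R ^ 2 - (starRingEnd ℂ) a * f (φ ζ) : ℂ))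
        (-((starRingEnd ℂ) a * (deriv f T * (r * (1 - t ^ 2))))) 0 :=
      (hcomp.const_mul ((starRingEnd ℂ) a)).const_sub _
    have h3 := h1.div h2 (hdeng 0 (by simp))
    refine h3.congr_deriv ?_
    have h5 : f (φ 0) = a := by rw [hφ0]
    have h4 : (R ^ 2 - (starRingEnd ℂ) a * a : ℂ) ≠ 0 := by
      have := hdeng 0 (by simp)
      rwa [h5] at this
    rw [← hnsq, h5]
    field_simp
    ring
  have hgdiff : DifferentiableOn ℂ g (ball 0 1) := by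
    intro ζ hζ
    have hζ' : ‖ζ‖ < 1 := by simpa using hζ
    apply DifferentiableAt.differentiableWithinAt
    have h1 : DifferentiableAt ℂ φ ζ := by
      apply DifferentiableAt.div
      · fun_prop
      · fun_prop
      · exact hden ζ hζ'
    have h2 : DifferentiableAt ℂ (fun ζ => f (φ ζ)) ζ := (hd _).comp ζ h1
    apply DifferentiableAt.div
    · exact (h2.sub_const a).const_mul (R:ℂ)
    · exact (h2.const_mul _).const_sub _
    · exact hdeng ζ hζ'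
  have key := Complex.norm_deriv_le_div_of_mapsTo_ball (f := g) (c := 0) (R₁ := 1) (R₂ := 1) hgdiff
    (by
      intro ζ hζ
      rw [hg0]
      simpa using (hgb ζ (by simpa using hζ)).le) one_pos
  rw [hgd.deriv] at key
  have hpos1 : 0 < R ^ 2 - ‖a‖ ^ 2 := by nlinarith [norm_nonneg a]
  have hpos2 : 0 < 1 - t ^ 2 := by nlinarith
  have hn : ‖(R * (deriv f T * (r * (1 - t ^ 2))) / (R ^ 2 - (‖a‖ ^ 2 : ℝ)) : ℂ)‖
      = R * (‖deriv f T‖ * (r * (1 - t ^ 2))) / (R ^ 2 - ‖a‖ ^ 2) := by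
    have e1 : ((R:ℂ) ^ 2 - ((‖a‖ ^ 2 : ℝ) : ℂ)) = ((R ^ 2 - ‖a‖ ^ 2 : ℝ) : ℂ) := by push_cast; ring
    have e2 : ((r:ℂ) * (1 - (t:ℂ) ^ 2)) = ((r * (1 - t ^ 2) : ℝ) : ℂ) := by push_cast; ring
    rw [e1, e2, norm_div, norm_mul, norm_mul, Complex.norm_real, Complex.norm_real, Complex.norm_real,
      Real.norm_eq_abs, Real.norm_eq_abs, Real.norm_eq_abs, abs_of_pos hR, abs_of_pos hpos1,
      abs_of_pos (mul_pos hr hpos2)]
  rw [hn, div_one, div_le_one hpos1] at key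
  have hTT : r ^ 2 - T ^ 2 = r ^ 2 * (1 - t ^ 2) := by
    rw [ht]; field_simp
  have hpos3 : 0 < r ^ 2 - T ^ 2 := by rw [hTT]; positivity
  rw [le_div_iff₀ (mul_pos hR hpos3), hTT]
  nlinarith [mul_le_mul_of_nonneg_right key hr.le]

/-- Schwarz-Pick. -/
theorem schwarz_pick {f : ℂ → ℂ} {r R T : ℝ} (hr : 0 < r) (hR : 0 < R) (hT0 : 0 ≤ T)
    (hT : T < r) (hd : Differentiable ℂ f) (hb : ∀ s : ℂ, ‖s‖ < r → ‖f s‖ ≤ R) :
    ‖deriv f (T : ℂ)‖ ≤ (R ^ 2 - ‖f T‖ ^ 2) * r / (R * (r ^ 2 - T ^ 2)) := by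
  have hpos : 0 < r ^ 2 - T ^ 2 := by nlinarith
  have h1 : ∀ ε : ℝ, 0 < ε → ‖deriv f (T : ℂ)‖ ≤
      ((R + ε) ^ 2 - ‖f T‖ ^ 2) * r / ((R + ε) * (r ^ 2 - T ^ 2)) := fun ε hε =>
    schwarz_pick_strict hr (by linarith) hT0 hT hd (fun s hs => lt_of_le_of_lt (hb s hs) (by linarith))
  have hc : ContinuousAt (fun ε : ℝ => ((R + ε) ^ 2 - ‖f T‖ ^ 2) * r / ((R + ε) * (r ^ 2 - T ^ 2))) 0 := by
    apply ContinuousAt.div
    · fun_prop
    · fun_prop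
    · simp only [add_zero]; positivity
  have hl : Filter.Tendsto (fun ε : ℝ => ((R + ε) ^ 2 - ‖f T‖ ^ 2) * r / ((R + ε) * (r ^ 2 - T ^ 2)))
      (nhdsWithin 0 (Ioi 0)) (nhds ((R ^ 2 - ‖f T‖ ^ 2) * r / (R * (r ^ 2 - T ^ 2)))) := by
    have := hc.tendsto
    simp only [add_zero] at this
    exact this.mono_left nhdsWithin_le_nhds
  apply ge_of_tendsto hl
  filter_upwards [self_mem_nhdsWithin] with ε hε using h1 ε hε

end Pool.Agent.Helper5.HD
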