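import Pool.Agent.Helper87.HD.Stmts

set_option autoImplicit false

/-!
Modules DET and EXP of the analytic core for all `d`: the `Φ`-determinant under mixing and transposition, expansion along
a first row with one entry.
-/

open Finset

namespace HD

variable {V : Type} [NormedAddCommGroup V] [InnerProductSpace ℂ V]

/-- The `Φ`-determinant as an alternating map of the rows. -/
noncomputable def altF {n : ℕ} (Φ : MultilinearMap ℂ (fun _ : Fin n => V) ℂ) :
    (Fin n → V) [⋀^Fin n]→ₗ[ℂ] ℂ :=
  MultilinearMap.alternatization (Φ.compLinearMap (fun i => LinearMap.proj i))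

theorem altF_apply {n : ℕ} {Φ : MultilinearMap ℂ (fun _ : Fin n => V) ℂ} (hs : SymF Φ)
    (X : Fin n → Fin n → V) : altF Φ X = fdet Φ X := by
  unfold altF fdet
  rw [MultilinearMap.alternatization_apply, ← Equiv.sum_comp (Equiv.inv (Equiv.Perm (Fin n)))]
  refine Finset.sum_congr rfl fun σ _ => ?_
  have h := hs σ (fun i => X (σ⁻¹ i) i)
  have e : ∀ i, σ⁻¹ (σ i) = i := fun i => by simp
  simp only [e] at h
  simp only [Equiv.inv_apply, Equiv.Perm.sign_inv]
  rw [h]
  show Equiv.Perm.sign σ • (Φ (fun i => X (σ⁻¹ i) i)) = _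
  rw [Units.smul_def, zsmul_eq_mul]

theorem fdet_transpose {n : ℕ} {Φ : MultilinearMap ℂ (fun _ : Fin n => V) ℂ} (hs : SymF Φ)
    (X : Fin n → Fin n → V) : fdet Φ (fun i j => X j i) = fdet Φ X := by
  unfold fdet
  rw [← Equiv.sum_comp (Equiv.inv (Equiv.Perm (Fin n)))]
  refine Finset.sum_congr rfl fun σ _ => ?_
  have h := hs σ⁻¹ (fun i => X i (σ i))
  have e : ∀ i, σ (σ⁻¹ i) = i := fun i => by simp
  simp only [e] at h
  simp only [Equiv.inv_apply, Equiv.Perm.sign_inv]
  rw [h]

theorem fdet_rows {n : ℕ} {Φ : MultilinearMap ℂ (fun _ : Fin n => V) ℂ} (hs : SymF Φ)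
    (A : Matrix (Fin n) (Fin n) ℂ) (X : Fin n → Fin n → V) :
    fdet Φ (fun i j => ∑ k, A i k • X k j) = A.det * fdet Φ X := by
  let L : (Fin n → ℂ) →ₗ[ℂ] (Fin n → V) :=
    { toFun := fun a j => ∑ k, a k • X k j
      map_add' := by
        intro a b; funext j
        simp only [Pi.add_apply, add_smul, Finset.sum_add_distrib]
      map_smul' := by
        intro c a; funext j
        simp only [Pi.smul_apply, smul_eq_mul, mul_smul, Finset.smul_sum, RingHom.id_apply] }
  have h1 := AlternatingMap.eq_smul_basis_det (Pi.basisFun ℂ (Fin n)) ((altF Φ).compLinearMap L)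
  let A' : Fin n → Fin n → ℂ := fun i k => A i k
  have h2 := congrArg (fun g => g A') h1
  have e1 : ((altF Φ).compLinearMap L) A' = fdet Φ (fun i j => ∑ k, A i k • X k j) := by
    rw [AlternatingMap.compLinearMap_apply]
    exact altF_apply hs _
  have e2 : ((altF Φ).compLinearMap L) (Pi.basisFun ℂ (Fin n)) = fdet Φ X := by
    rw [AlternatingMap.compLinearMap_apply, altF_apply hs]
    congr 1
    funext i j
    show ∑ k, (Pi.basisFun ℂ (Fin n) i) k • X k j = X i j
    simp [Pi.basisFun_apply, Pi.single_apply, ite_smul]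
  have e3 : (Pi.basisFun ℂ (Fin n)).det A' = A.det := by
    rw [Pi.basisFun_det]; rfl
  have h3 : ((altF Φ).compLinearMap L) A' =
      ((altF Φ).compLinearMap L) (Pi.basisFun ℂ (Fin n)) * (Pi.basisFun ℂ (Fin n)).det A' := h2
  rw [e1, e2, e3] at h3
  rw [h3, mul_comm]

theorem st_DET : ST_DET := by
  intro V _ _ _ n Φ hs
  refine ⟨fun A B X => ?_, fun X => fdet_transpose hs X⟩
  have h1 : mix A X B = fun i j => ∑ k, A i k • (fun k j => ∑ l, B l j • X k l) k j := by
    funext i j
    simp only [mix, Finset.smul_sum, mul_smul]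
  rw [h1, fdet_rows hs, mul_assoc]
  congr 1
  rw [← fdet_transpose hs (fun k j => ∑ l, B l j • X k l)]
  have h2 := fdet_rows hs B.transpose (fun i j => X j i)
  simp only [Matrix.transpose_apply, Matrix.det_transpose] at h2
  rw [h2, fdet_transpose hs]

theorem st_EXP : ST_EXP := by
  intro V _ _ _ n Φ X h0
  unfold fdet
  rw [← Equiv.sum_comp Equiv.Perm.decomposeFin.symm, Fintype.sum_prod_type, Fin.sum_univ_succ]
  have hz : ∑ i : Fin n, ∑ y : Equiv.Perm (Fin n),
      ((Equiv.Perm.sign (Equiv.Perm.decomposeFin.symm (i.succ, y)) : ℤ) : ℂ) *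
        Φ (fun k => X k (Equiv.Perm.decomposeFin.symm (i.succ, y) k)) = 0 := by
    refine Finset.sum_eq_zero fun i _ => Finset.sum_eq_zero fun y _ => ?_
    rw [Φ.map_coord_zero (0 : Fin (n + 1)), mul_zero]
    rw [Equiv.Perm.decomposeFin_symm_apply_zero]
    exact h0 i
  rw [hz, add_zero]
  refine Finset.sum_congr rfl fun y _ => ?_
  rw [Equiv.Perm.decomposeFin.symm_sign]
  simp only [if_true, one_mul]
  rw [MultilinearMap.curryLeft_apply]
  congr 2
  funext k
  refine Fin.cases ?_ (fun i => ?_) k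
  · simp [Equiv.Perm.decomposeFin_symm_apply_zero]
  · simp [Equiv.Perm.decomposeFin_symm_apply_succ, minor]

end HD

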